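import Pool.Agent.Lib.MP_9c9c2f_co.HEnd

open Finset in
lemma Pool.Agent.K9c.pair_card {n : ℕ} {i j : Fin n} (h : j.1 = i.1 + 1) (p : Fin n → Prop)
    [DecidablePred p] {f : Fin n → ℤ} (e : ∀ k, f k = if p k then 1 else 0) :
    f i + f j = ((univ.filter fun k : Fin n => (k = i ∨ k = j) ∧ p k).card : ℤ) := by
  have hij : i ≠ j := fun e => by rw [e] at h; omega
  rw [← filter_filter, filter_or, filter_eq', filter_eq', if_pos (mem_univ _), if_pos (mem_univ _),
    card_filter, sum_union (by simpa using hij), sum_singleton, sum_singleton, e, e]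
  push_cast; rfl

lemma Pool.Agent.K9c.sm_up {n : ℕ} (u : Equiv.Perm (Fin n)) (k : Fin n) :
    sm (u⁻¹ * Fin.revPerm) k = if ∃ l : Fin n, l < k ∧ u l < u k then 1 else 0 := by
  unfold sm
  refine if_congr (exists_congr fun l => and_congr_right fun _ => ?_) rfl rfl
  simp [Equiv.Perm.inv_def]

lemma Pool.Agent.K9c.sm_down {n : ℕ} (w : Equiv.Perm (Fin n)) (k : Fin n) :
    sm w⁻¹ k = if ∃ l : Fin n, l < k ∧ w k < w l then 1 else 0 := by
  unfold sm
  exact if_congr (by rw [inv_inv]) rfl rfl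

/-- The normalisation of `E w v (x ^ lam * S u)` is Lorentzian under a gap condition on `lam` at the
simple transpositions below `w`: nonnegative coefficients, M-convex support, and at most one
positive eigenvalue for the Hessian of each derivative of the normalisation down to degree two. -/
theorem Pool.Agent.Results.MP_9c9c2f_co.SkewLorentzian.result :
    ∀ (n : ℕ) (D : Equiv.Perm (Fin n) → MvPolynomial (Fin n) ℤ → MvPolynomial (Fin n) ℤ)
      (E : Equiv.Perm (Fin n) → Equiv.Perm (Fin n) → MvPolynomial (Fin n) ℤ →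
        MvPolynomial (Fin n) ℤ),
      (∀ f, D 1 f = f) →
      (∀ (w : Equiv.Perm (Fin n)) (i j : Fin n), j.val = i.val + 1 →
        (Finset.univ.filter (fun p : Fin n × Fin n =>
            p.1 < p.2 ∧ (Equiv.swap i j * w) p.2 < (Equiv.swap i j * w) p.1)).card
          < (Finset.univ.filter (fun p : Fin n × Fin n => p.1 < p.2 ∧ w p.2 < w p.1)).card →
        ∀ f, (MvPolynomial.X i - MvPolynomial.X j) * D w f
          = D (Equiv.swap i j * w) f
            - MvPolynomial.rename (⇑(Equiv.swap i j)) (D (Equiv.swap i j * w) f)) →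
      (∀ (w : Equiv.Perm (Fin n)) (f g : MvPolynomial (Fin n) ℤ),
        D w (f * g) = ∑ v : Equiv.Perm (Fin n), E w v f * D v g) →
      ∀ (u v w : Equiv.Perm (Fin n)) (lam : Fin n → ℕ),
        (∀ i j : Fin n, j.val = i.val + 1 → (∃ k : Fin n, k ≤ i ∧ i < w k) →
          lam j + (Finset.univ.filter (fun k : Fin n =>
              (k = i ∨ k = j) ∧ ∃ l : Fin n, l < k ∧ u l < u k)).card
            + (Finset.univ.filter (fun k : Fin n =>
              (k = i ∨ k = j) ∧ ∃ l : Fin n, l < k ∧ v l < v k)).card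
            + (Finset.univ.filter (fun k : Fin n =>
              (k = i ∨ k = j) ∧ ∃ l : Fin n, l < k ∧ w k < w l)).card ≤ lam i + 3) →
        ∀ F : MvPolynomial (Fin n) ℤ,
          F = E w v ((∏ i : Fin n, MvPolynomial.X i ^ lam i) * D (u⁻¹ * Fin.revPerm)
            (∏ i : Fin n, MvPolynomial.X i ^ (n - 1 - (i : ℕ)))) →
          (∀ m : Fin n →₀ ℕ, 0 ≤ MvPolynomial.coeff m F) ∧
          (∀ a b : Fin n →₀ ℕ, MvPolynomial.coeff a F ≠ 0 → MvPolynomial.coeff b F ≠ 0 →
            ∀ s : Fin n, b s < a s → ∃ t : Fin n, a t < b t ∧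
              MvPolynomial.coeff (a - Finsupp.single s 1 + Finsupp.single t 1) F ≠ 0) ∧
          ∀ α : Fin n →₀ ℕ, ∃ hH : (Matrix.of fun i j : Fin n =>
              ((MvPolynomial.coeff (α + Finsupp.single i 1 + Finsupp.single j 1) F : ℤ) :
                ℝ)).IsHermitian,
            (Finset.univ.filter (fun i : Fin n => 0 < hH.eigenvalues i)).card ≤ 1 := by
  intro n D E h1 h2 h3 u v w lam hl F hF
  obtain ⟨ν, P, a1, a2⟩ := Pool.Agent.K9c.skew_rcp h1 (fun f w i j hij hl => h2 w i j hij hl f) h3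
    (u⁻¹ * Fin.revPerm) v w lam fun i j hij hw => by
      have := hl i j hij hw
      have := Pool.Agent.K9c.pair_card hij _ (Pool.Agent.K9c.sm_up u)
      have := Pool.Agent.K9c.pair_card hij _ (Pool.Agent.K9c.sm_up v)
      have := Pool.Agent.K9c.pair_card hij _ (Pool.Agent.K9c.sm_down w)
      omega
  obtain ⟨b1, b2, b3⟩ := Pool.Agent.K9c.lorentz_of_rcp a1 (hF ▸ a2)
  exact ⟨b1, fun a b ha hb => b2 a ha b hb, b3⟩
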