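import Pool.Agent.Lib.MP_9c9c2f_co.Main

/-- Skew divided differences of (double) Schubert polynomials have positive coefficients exactly
on an M-convex set. The variables are indexed by `τ`; `x i` are the variables on which the
symmetric group acts, and each `y j` is either another variable or zero. -/
theorem Pool.Agent.Results.MP_9c9c2f_co.SkewMConvex.result :
    ∀ (n : ℕ) (τ : Type) [Fintype τ] [DecidableEq τ] (x : Fin n → τ) (y : Fin n → Option τ)
      (D : Equiv.Perm (Fin n) → MvPolynomial τ ℤ → MvPolynomial τ ℤ)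
      (E : Equiv.Perm (Fin n) → Equiv.Perm (Fin n) → MvPolynomial τ ℤ → MvPolynomial τ ℤ),
      Function.Injective x → (∀ i j, y j ≠ some (x i)) →
      (∀ f, D 1 f = f) →
      (∀ (w : Equiv.Perm (Fin n)) (i j : Fin n), j.val = i.val + 1 →
        (Finset.univ.filter (fun p : Fin n × Fin n =>
            p.1 < p.2 ∧ (Equiv.swap i j * w) p.2 < (Equiv.swap i j * w) p.1)).card
          < (Finset.univ.filter (fun p : Fin n × Fin n => p.1 < p.2 ∧ w p.2 < w p.1)).card →
        ∀ f, (MvPolynomial.X (x i) - MvPolynomial.X (x j)) * D w f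
          = D (Equiv.swap i j * w) f
            - MvPolynomial.rename (⇑(Equiv.swap (x i) (x j))) (D (Equiv.swap i j * w) f)) →
      (∀ (w : Equiv.Perm (Fin n)) (f g : MvPolynomial τ ℤ),
        D w (f * g) = ∑ v : Equiv.Perm (Fin n), E w v f * D v g) →
      ∀ (u v w : Equiv.Perm (Fin n)), ∃ B : Set (τ →₀ ℕ),
        (∀ a ∈ B, ∀ b ∈ B, ∀ s : τ, b s < a s →
          ∃ t : τ, a t < b t ∧ a - Finsupp.single s 1 + Finsupp.single t 1 ∈ B) ∧
        ∀ m : τ →₀ ℕ,
          (m ∈ B → 0 < MvPolynomial.coeff m (E w v (D (u⁻¹ * Fin.revPerm)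
            (∏ p ∈ Finset.univ.filter (fun p : Fin n × Fin n => p.1.val + p.2.val < n - 1),
              (MvPolynomial.X (x p.1) + (y p.2).elim 0 MvPolynomial.X))))) ∧
          (m ∉ B → MvPolynomial.coeff m (E w v (D (u⁻¹ * Fin.revPerm)
            (∏ p ∈ Finset.univ.filter (fun p : Fin n × Fin n => p.1.val + p.2.val < n - 1),
              (MvPolynomial.X (x p.1) + (y p.2).elim 0 MvPolynomial.X)))) = 0) := by
  intro n τ _ _ x y D E hx hy h1 h2 h3 u v w
  exact Pool.Agent.K9c.skew_mconvex hx hy h1 (fun f w i j hij hl => h2 w i j hij hl f) h3 _ v w
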